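import Pool.Agent.KCE.Main

/-!
Problem MP_f6626d_co: the area law of uniform `k(n)`-column-convex self-avoiding polygons for every
`k(n)` with `k(n)^2 / log n → 0`, with all moments.
Definitions: `Pool/Agent/Lib_helper27/Defs.lean` (`SAP`, `pos`, `area`),
`Pool/Agent/Lib_helper41/SapR/FinalDefs.lean` (`Staircase`, `areaCdf`),
`Pool/Agent/KCC/FinalDefs.lean` (`vcross`, `ColConvex`), `Pool/Agent/KCS/FinalDefs.lean`
(`areaMoment`, `airyOm`, `airyMoment`).
-/

set_option autoImplicit false

namespace Pool.Agent.Results.MP_f6626d_co.AreaLawColumnConvexWindow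

open Filter Topology MeasureTheory Pool.Agent.AreaLaw
open Pool.Agent.KCC (areaMoment)
open Pool.Agent.KCS (airyMoment)

/-- There are a probability law `ν` and numbers `0 < μ 1 < μ 2 < …` such that
(1) the moments of `ν` are those of the Airy law (area under a normalised Brownian excursion)
divided by its mean, and `area / E[area]` converges in distribution to `ν` for staircase polygons;
(2) `μ k` increases to the growth rate `M = lim (card (SAP n)) ^ (1 / n)` of all self-avoiding
polygons;
(3) for EVERY sequence `k n ≥ 1` (for large `n`) with `(k n) ^ 2 / log n → 0` the area `A` of a UNIFORM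
`k n`-column-convex self-avoiding polygon of perimeter `2n` (every vertical line `x = h + 1/2` meets
the polygon in at most `2 (k n)` points, that is, meets the enclosed region in at most `k n`
intervals) satisfies: `A / E[A]` converges in distribution to `ν`, `E[A ^ r] / E[A] ^ r` converges to
the `r`-th moment of `ν` for every `r`; the number of words of these polygons (`4 n` words for each
polygon) is `(μ (k n)) ^ n * n ^ (-1/2 + o(1))`, and `E[A] = n ^ (3/2 + o(1))`;
(4) for every `k n → ∞` the `k n`-column-convex polygons are a fraction `exp (-o(n))` of all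
self-avoiding polygons;
(5) for every fixed `k ≥ 1` there are `a, b > 0` such that the number of words is asymptotic to
`a (μ k) ^ n / √n` and the mean area is asymptotic to `b n ^ (3 / 2)`. -/
theorem result :
    ∃ ν : Measure ℝ, IsProbabilityMeasure ν ∧
      (∀ r : ℕ, Integrable (fun x : ℝ => x ^ r) ν ∧ ∫ x, x ^ r ∂ν = airyMoment r) ∧
      (∀ x : ℝ, ν {x} = 0 →
        Tendsto (fun n : ℕ => areaCdf n (Staircase n) x) atTop (𝓝 (ν (Set.Iic x)).toReal)) ∧
      ∃ (μ : ℕ → ℝ) (M : ℝ), (∀ k, 1 ≤ k → 0 < μ k ∧ μ k < μ (k + 1)) ∧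
        Tendsto μ atTop (𝓝 M) ∧
        Tendsto (fun n : ℕ => ((SAP n).card : ℝ) ^ ((1 : ℝ) / n)) atTop (𝓝 M) ∧
        (∀ k : ℕ → ℕ, (∀ᶠ n : ℕ in atTop, 1 ≤ k n) →
          Tendsto (fun n : ℕ => (k n : ℝ) ^ 2 / Real.log n) atTop (𝓝 0) →
          (∀ x : ℝ, ν {x} = 0 →
            Tendsto (fun n : ℕ => areaCdf n (ColConvex (k n) n) x) atTop
              (𝓝 (ν (Set.Iic x)).toReal)) ∧
          (∀ r : ℕ, Tendsto (fun n : ℕ => areaMoment n (ColConvex (k n) n) r) atTop
            (𝓝 (airyMoment r))) ∧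
          Tendsto (fun n : ℕ => Real.log (((ColConvex (k n) n).card : ℝ) / μ (k n) ^ n) /
            Real.log n) atTop (𝓝 (-(1 / 2))) ∧
          Tendsto (fun n : ℕ => Real.log ((∑ s ∈ ColConvex (k n) n, area n s) /
            ((ColConvex (k n) n).card : ℝ)) / Real.log n) atTop (𝓝 (3 / 2))) ∧
        (∀ k : ℕ → ℕ, Tendsto k atTop atTop → ∀ ε : ℝ, 0 < ε → ∀ᶠ n : ℕ in atTop,
          Real.exp (-(ε * n)) * ((SAP n).card : ℝ) ≤ ((ColConvex (k n) n).card : ℝ)) ∧
        ∀ k, 1 ≤ k → ∃ a b : ℝ, 0 < a ∧ 0 < b ∧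
          Tendsto (fun n : ℕ => ((ColConvex k n).card : ℝ) * Real.sqrt n / μ k ^ n) atTop (𝓝 a) ∧
          Tendsto (fun n : ℕ => (∑ s ∈ ColConvex k n, area n s) / ((ColConvex k n).card : ℝ) /
            ((n : ℝ) * Real.sqrt n)) atTop (𝓝 b) :=
  Pool.Agent.KCE.main4

end Pool.Agent.Results.MP_f6626d_co.AreaLawColumnConvexWindow
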