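import Pool.Agent.PFS.MainQ

/-!
Problem MP_f6626d_co: the area law of uniform self-avoiding polygons with prescribed span and with
prescribed diameter, with all moments: explicit window `n / (log n) ^ a ≤ h n ≤ n` and all `h n`
with `P(g ≥ h n) ≤ exp (-n ^ (1 - c))`.
Definitions: `Pool/Agent/Lib_helper27/Defs.lean` (`SAP`, `pos`, `area`),
`Pool/Agent/Lib_helper41/SapR/FinalDefs.lean` (`Staircase`, `areaCdf`),
`Pool/Agent/Lib_helper89/FL/FinalDefs.lean` (`span`), `Pool/Agent/DIA/FinalDefs.lean` (`diam`) and
`Pool/Agent/KCS/FinalDefs.lean` (`areaMoment`, `airyOm`, `airyMoment`).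
-/

set_option autoImplicit false

namespace Pool.Agent.Results.MP_f6626d_co.AreaLawEverySpan

open Finset Filter Topology MeasureTheory Pool.Agent.AreaLaw Pool.Agent.KCC Pool.Agent.KCS

/-- There is a probability law `μ` with the moments of the Airy law (normalised to mean one) such
that `area / E[area]` converges in distribution to `μ` for staircase polygons, and there are absolute
constants `a > 0`, `c > 0` with the following property. Let `g` be the span (the difference between
the largest and the smallest value of `x + y`) or the diameter (the largest distance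
`|x - x'| + |y - y'|` of two vertices), and let `h n ≤ n` be integers such that for all large `n`:
`n / (log n) ^ a ≤ h n`, or the number of self-avoiding polygons of perimeter `2n` with `g ≥ h n` is
at most `exp (-n ^ (1 - c))` times the number of all of them. Then `area / E[area]` converges in
distribution to `μ` for a uniformly random self-avoiding polygon of perimeter `2n` with `g` equal to
`h n`, and for one with `g` at least `h n`. For every `r` there is an absolute constant `c > 0` (which
may depend on `r`; `a` does not) such that under the same hypothesis the moments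
`E[area ^ r] / E[area] ^ r` of these polygons converge to that of the Airy law. -/
theorem result :
    ∃ μ : Measure ℝ, IsProbabilityMeasure μ ∧
      (∀ r : ℕ, Integrable (fun x : ℝ => x ^ r) μ ∧ ∫ x, x ^ r ∂μ = airyMoment r) ∧
      (∀ x : ℝ, μ {x} = 0 →
        Tendsto (fun n : ℕ => areaCdf n (Staircase n) x) atTop (𝓝 (μ (Set.Iic x)).toReal)) ∧
      ∃ a : ℝ, 0 < a ∧
        (∃ c : ℝ, 0 < c ∧
          ∀ g : ∀ n : ℕ, (Fin (2 * n) → Fin 4) → ℕ, (g = span ∨ g = diam) →
          ∀ h : ℕ → ℕ, (∀ᶠ n : ℕ in atTop, h n ≤ n ∧ ((n : ℝ) / Real.log n ^ a ≤ h n ∨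
            (((SAP n).filter (fun s => h n ≤ g n s)).card : ℝ) ≤
              Real.exp (-((n : ℝ) ^ (1 - c))) * (SAP n).card)) →
          ∀ x : ℝ, μ {x} = 0 →
            Tendsto (fun n : ℕ => areaCdf n ((SAP n).filter (fun s => g n s = h n)) x) atTop
              (𝓝 (μ (Set.Iic x)).toReal) ∧
            Tendsto (fun n : ℕ => areaCdf n ((SAP n).filter (fun s => h n ≤ g n s)) x) atTop
              (𝓝 (μ (Set.Iic x)).toReal)) ∧
        ∀ r : ℕ, ∃ c : ℝ, 0 < c ∧
          ∀ g : ∀ n : ℕ, (Fin (2 * n) → Fin 4) → ℕ, (g = span ∨ g = diam) →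
          ∀ h : ℕ → ℕ, (∀ᶠ n : ℕ in atTop, h n ≤ n ∧ ((n : ℝ) / Real.log n ^ a ≤ h n ∨
            (((SAP n).filter (fun s => h n ≤ g n s)).card : ℝ) ≤
              Real.exp (-((n : ℝ) ^ (1 - c))) * (SAP n).card)) →
            Tendsto (fun n : ℕ => areaMoment n ((SAP n).filter (fun s => g n s = h n)) r)
              atTop (𝓝 (airyMoment r)) ∧
            Tendsto (fun n : ℕ => areaMoment n ((SAP n).filter (fun s => h n ≤ g n s)) r)
              atTop (𝓝 (airyMoment r)) := by
  obtain ⟨μ, hμ, hmom, hst, a, ha, c, hc, H⟩ := Pool.Agent.PFS.mainQ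
  exact ⟨μ, hμ, hmom, hst, a, ha, ⟨c 0, hc 0, fun g hg h hh => (H g hg h).1 hh⟩,
    fun r => ⟨c r, hc r, fun g hg h hh => (H g hg h).2 r hh⟩⟩

end Pool.Agent.Results.MP_f6626d_co.AreaLawEverySpan
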