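import Pool.Agent.TPE.Main

/-!
Problem MP_f6626d_co: the area law of self-avoiding polygons through two prescribed points, with
all moments, for all positions of the second point in the l1 ball of radius `n` except its centre
and its four corners.  Definitions: `Pool/Agent/Lib_helper27/Defs.lean` (`SAP`, `pos`,
`area`), `Pool/Agent/Lib_helper41/SapR/FinalDefs.lean` (`Staircase`, `areaCdf`),
`Pool/Agent/KCS/FinalDefs.lean` (`areaMoment`, `airyOm`, `airyMoment`).
-/

set_option autoImplicit false

namespace Pool.Agent.Results.MP_f6626d_co.AreaLawTwoPoints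

open Finset Filter Topology MeasureTheory Pool.Agent.AreaLaw Pool.Agent.KCC Pool.Agent.KCS

open Classical in
/-- There are a probability law `μ` with the moments of the Airy law (normalised to mean one) and
a sequence `e n > 0` tending to `0` such that `area / E[area]` converges in distribution to `μ`
for staircase polygons and, for all lattice points `z n = (x, y)` with
`e n * n ≤ |x| + |y| ≤ n` and `max |x| |y| ≤ (1 - e n) * n` (for all large `n`), for a uniformly
random self-avoiding polygon of perimeter `2n` through the origin and `z n` (words of `SAP n` which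
visit `z n`); moreover all the moments `E[area ^ r] / E[area] ^ r` converge to those of the Airy
law. -/
theorem result :
    ∃ μ : Measure ℝ, IsProbabilityMeasure μ ∧
      (∀ r : ℕ, Integrable (fun x : ℝ => x ^ r) μ ∧ ∫ x, x ^ r ∂μ = airyMoment r) ∧
      (∀ x : ℝ, μ {x} = 0 →
        Tendsto (fun n : ℕ => areaCdf n (Staircase n) x) atTop (𝓝 (μ (Set.Iic x)).toReal)) ∧
      ∃ e : ℕ → ℝ, (∀ n, 0 < e n) ∧ Tendsto e atTop (𝓝 0) ∧
        ∀ z : ℕ → ℤ × ℤ,
          (∀ᶠ n : ℕ in atTop, e n * n ≤ ((|(z n).1| + |(z n).2| : ℤ) : ℝ) ∧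
            |(z n).1| + |(z n).2| ≤ n ∧ ((max |(z n).1| |(z n).2| : ℤ) : ℝ) ≤ (1 - e n) * n) →
          (∀ x : ℝ, μ {x} = 0 →
            Tendsto (fun n : ℕ =>
                areaCdf n ((SAP n).filter (fun w => ∃ j < 2 * n, pos n w j = z n)) x) atTop
              (𝓝 (μ (Set.Iic x)).toReal)) ∧
          ∀ r : ℕ,
            Tendsto (fun n : ℕ =>
                areaMoment n ((SAP n).filter (fun w => ∃ j < 2 * n, pos n w j = z n)) r) atTop
              (𝓝 (airyMoment r)) :=
  Pool.Agent.TPE.main

end Pool.Agent.Results.MP_f6626d_co.AreaLawTwoPoints
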