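import Pool.Agent.PFW.MainF

/-!
Problem MP_f6626d_co: the area law of self-avoiding polygons, with all moments, under a force
which tends to zero, in a polynomial window `f(n) ≥ n ^ (-c)`; the force acts on the span or on
the diameter.
Definitions: `Pool/Agent/Lib_helper27/Defs.lean` (`SAP`, `pos`, `area`),
`Pool/Agent/Lib_helper41/SapR/FinalDefs.lean` (`Staircase`, `areaCdf`),
`Pool/Agent/Lib_helper89/FL/FinalDefs.lean` (`span`, `forceZ`, `forceCdf`),
`Pool/Agent/EXW/FinalDefs.lean` (`forceMoment`), `Pool/Agent/DIA/FinalDefs.lean` (`diam`, `diamZ`,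
`diamCdf`, `diamMoment`) and `Pool/Agent/KCS/FinalDefs.lean` (`airyOm`, `airyMoment`).
-/

set_option autoImplicit false

namespace Pool.Agent.Results.MP_f6626d_co.AreaLawVanishingForce

open Filter Topology MeasureTheory Pool.Agent.AreaLaw Pool.Agent.KCS

/-- There is a probability law `μ` with the moments of the Airy law (normalised to mean one) such
that `area / E[area]` converges in distribution to `μ` for staircase polygons, and there is an
absolute constant `c > 0` such that the same holds, for EVERY sequence `f` of real numbers with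
`f n ≥ n ^ (-c)` for large `n`, for random self-avoiding polygons of perimeter `2n` with
probabilities proportional to `exp (f n * span)`, where `span` is the difference between the
largest and the smallest value of `x + y` on the polygon, and for those with probabilities
proportional to `exp (f n * diam)`, where `diam` is the largest distance `|x - x'| + |y - y'|` of
two vertices. For every `r` there is an absolute constant `c > 0` (which may depend on `r`) such
that for EVERY sequence `f` with `f n ≥ n ^ (-c)` for large `n` the moments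
`E[area ^ r] / E[area] ^ r` of these random polygons converge to that of the Airy law. -/
theorem result :
    ∃ μ : Measure ℝ, IsProbabilityMeasure μ ∧
      (∀ r : ℕ, Integrable (fun x : ℝ => x ^ r) μ ∧ ∫ x, x ^ r ∂μ = airyMoment r) ∧
      (∀ x : ℝ, μ {x} = 0 →
        Tendsto (fun n : ℕ => areaCdf n (Staircase n) x) atTop (𝓝 (μ (Set.Iic x)).toReal)) ∧
      (∃ c : ℝ, 0 < c ∧ ∀ f : ℕ → ℝ, (∀ᶠ n : ℕ in atTop, (n : ℝ) ^ (-c) ≤ f n) →
        ∀ x : ℝ, μ {x} = 0 →
          Tendsto (fun n : ℕ => forceCdf (f n) n x) atTop (𝓝 (μ (Set.Iic x)).toReal) ∧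
          Tendsto (fun n : ℕ => diamCdf (f n) n x) atTop (𝓝 (μ (Set.Iic x)).toReal)) ∧
      ∀ r : ℕ, ∃ c : ℝ, 0 < c ∧ ∀ f : ℕ → ℝ, (∀ᶠ n : ℕ in atTop, (n : ℝ) ^ (-c) ≤ f n) →
        Tendsto (fun n : ℕ => forceMoment (f n) n r) atTop (𝓝 (airyMoment r)) ∧
        Tendsto (fun n : ℕ => diamMoment (f n) n r) atTop (𝓝 (airyMoment r)) := by
  obtain ⟨μ, hμ, hmom, hst, c, hc, h⟩ := Pool.Agent.PFW.mainF4
  exact ⟨μ, hμ, hmom, hst, ⟨c 0, hc 0, fun f hf => (h f).1 hf⟩,
    fun r => ⟨c r, hc r, fun f hf => (h f).2 r hf⟩⟩

end Pool.Agent.Results.MP_f6626d_co.AreaLawVanishingForce
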